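import Pool.Agent.H94.LP3.M04

/-!
# Module CremL: linear changes of coordinates
-/

namespace Pool.Agent.H18.Cub

open Finset Pool.Agent.H18.Fat

/-- The substitution `F ↦ F(g x)`. -/
noncomputable def cremL_lin {n : ℕ} (g : Matrix (Fin n) (Fin n) ℂ) :
    MvPolynomial (Fin n) ℂ →ₐ[ℂ] MvPolynomial (Fin n) ℂ :=
  MvPolynomial.aeval fun j => ∑ i, MvPolynomial.C (g j i) * MvPolynomial.X i

theorem cremL_lin_X {n : ℕ} (g : Matrix (Fin n) (Fin n) ℂ) (j : Fin n) :
    cremL_lin g (MvPolynomial.X j) = ∑ i, MvPolynomial.C (g j i) * MvPolynomial.X i := by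
  simp [cremL_lin]

theorem cremL_lin_C {n : ℕ} (g : Matrix (Fin n) (Fin n) ℂ) (a : ℂ) :
    cremL_lin g (MvPolynomial.C a) = MvPolynomial.C a := (cremL_lin g).commutes a

theorem cremL_comp {n : ℕ} (g g' : Matrix (Fin n) (Fin n) ℂ) :
    (cremL_lin g).comp (cremL_lin g') = cremL_lin (g' * g) := by
  refine MvPolynomial.algHom_ext fun j => ?_
  rw [AlgHom.comp_apply, cremL_lin_X, cremL_lin_X, map_sum]
  simp only [map_mul, cremL_lin_C, cremL_lin_X, Matrix.mul_apply, map_sum, Finset.mul_sum,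
    Finset.sum_mul]
  rw [Finset.sum_comm]
  refine Finset.sum_congr rfl fun l _ => Finset.sum_congr rfl fun i _ => ?_
  ring

theorem cremL_one {n : ℕ} : cremL_lin (1 : Matrix (Fin n) (Fin n) ℂ) = AlgHom.id ℂ _ := by
  refine MvPolynomial.algHom_ext fun j => ?_
  rw [cremL_lin_X, Finset.sum_eq_single j]
  · simp
  · intro i _ hi
    rw [Matrix.one_apply_ne (Ne.symm hi)]
    simp
  · intro h
    exact absurd (Finset.mem_univ j) h

theorem cremL_homogeneous {n d : ℕ} (g : Matrix (Fin n) (Fin n) ℂ)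
    {F : MvPolynomial (Fin n) ℂ} (hF : F.IsHomogeneous d) : (cremL_lin g F).IsHomogeneous d := by
  have h := hF.aeval (fun j => ∑ i, MvPolynomial.C (g j i) * MvPolynomial.X i)
    (n := 1) (fun j => MvPolynomial.IsHomogeneous.sum _ _ _ fun i _ => by
      have := (MvPolynomial.isHomogeneous_C (Fin n) (g j i)).mul
        (MvPolynomial.isHomogeneous_X ℂ i)
      simpa using this)
  rw [one_mul] at h
  exact h

theorem cremL_vanishes {n m : ℕ} (g : Matrix (Fin n) (Fin n) ℂ) (q : Fin n → ℂ)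
    {F : MvPolynomial (Fin n) ℂ} (hF : VanishesToOrder F (g.mulVec q) m) :
    VanishesToOrder (cremL_lin g F) q m := by
  rw [vanishesToOrder_iff_mem_ideal_pow] at hF ⊢
  have h1 := Ideal.mem_map_of_mem (cremL_lin g) hF
  rw [Ideal.map_pow] at h1
  refine Ideal.pow_right_mono ?_ m h1
  rw [Ideal.map_span, Ideal.span_le]
  rintro _ ⟨_, ⟨j, rfl⟩, rfl⟩
  have h2 : cremL_lin g (MvPolynomial.X j - MvPolynomial.C (g.mulVec q j)) =
      ∑ i, MvPolynomial.C (g j i) * (MvPolynomial.X i - MvPolynomial.C (q i)) := by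
    rw [map_sub, cremL_lin_X, cremL_lin_C, Matrix.mulVec, dotProduct, map_sum,
      ← Finset.sum_sub_distrib]
    refine Finset.sum_congr rfl fun i _ => ?_
    rw [map_mul]
    ring
  show cremL_lin g (MvPolynomial.X j - MvPolynomial.C (g.mulVec q j)) ∈ _
  rw [h2]
  exact Ideal.sum_mem _ fun i _ => Ideal.mul_mem_left _ _ (Ideal.subset_span ⟨i, rfl⟩)

/-- Linear changes of coordinates do not change the dimension.  (The linear substitution
`F ↦ F(g x)` maps forms vanishing to order `m` at `g q` to forms vanishing to order `m` at `q`; the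
inverse matrix gives the inverse map.  For the orders use `vanishesToOrder_iff_mem_ideal_pow`: the
substitution maps `X_j - (g q)_j` to `∑ i, g j i (X_i - q_i)`.) -/
theorem finrank_linear {r d : ℕ} {ι : Type*} (g : Matrix (Fin (r + 1)) (Fin (r + 1)) ℂ)
    (hg : IsUnit g.det) (p : ι → Fin (r + 1) → ℂ) (m : ι → ℕ) :
    Module.finrank ℂ (fatForms r d (fun i => g.mulVec (p i)) m) =
      Module.finrank ℂ (fatForms r d p m) := by
  let e : MvPolynomial (Fin (r + 1)) ℂ ≃ₐ[ℂ] MvPolynomial (Fin (r + 1)) ℂ :=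
    AlgEquiv.ofAlgHom (cremL_lin g) (cremL_lin g⁻¹)
      (by rw [cremL_comp, Matrix.nonsing_inv_mul g hg, cremL_one])
      (by rw [cremL_comp, Matrix.mul_nonsing_inv g hg, cremL_one])
  have h : (fatForms r d (fun i => g.mulVec (p i)) m).map
      (e.toLinearEquiv : MvPolynomial (Fin (r + 1)) ℂ →ₗ[ℂ] MvPolynomial (Fin (r + 1)) ℂ) =
      fatForms r d p m := by
    ext F
    constructor
    · rintro ⟨G, ⟨hG1, hG2⟩, rfl⟩
      exact ⟨cremL_homogeneous g hG1, fun i => cremL_vanishes g (p i) (hG2 i)⟩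
    · rintro ⟨hF1, hF2⟩
      refine ⟨cremL_lin g⁻¹ F, ⟨cremL_homogeneous _ hF1, fun i => cremL_vanishes _ _ ?_⟩, ?_⟩
      · rw [Matrix.mulVec_mulVec, Matrix.nonsing_inv_mul g hg, Matrix.one_mulVec]
        exact hF2 i
      · exact e.apply_symm_apply F
  rw [← h]
  exact (LinearEquiv.finrank_map_eq e.toLinearEquiv _).symm

/-- For general points the `r + 1` points `J l` are linearly independent. -/
theorem general_det (r k : ℕ) (J : Fin (r + 1) ↪ Fin k) :
    ForGeneralPoints r k fun p => (Matrix.of fun i l => p (J l) i).det ≠ 0 := by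
  classical
  let M : Matrix (Fin (r + 1)) (Fin (r + 1)) (MvPolynomial (Fin k × Fin (r + 1)) ℂ) :=
    Matrix.of fun i l => MvPolynomial.X (J l, i)
  have hM : ∀ p : Fin k → Fin (r + 1) → ℂ, MvPolynomial.eval (fun x => p x.1 x.2) M.det =
      (Matrix.of fun i l => p (J l) i).det := by
    intro p
    rw [RingHom.map_det]
    congr 1
    ext i l
    simp [M]
  refine ⟨M.det, ?_, fun p hp => by rwa [hM] at hp⟩
  intro h0
  have h1 := hM fun a i => if J i = a then 1 else 0
  rw [h0, map_zero] at h1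
  have h2 : (Matrix.of fun i l => if J i = J l then (1 : ℂ) else 0) =
      (1 : Matrix (Fin (r + 1)) (Fin (r + 1)) ℂ) := by
    ext i l
    rw [Matrix.of_apply, Matrix.one_apply]
    simp only [EmbeddingLike.apply_eq_iff_eq]
  rw [h2, Matrix.det_one] at h1
  exact one_ne_zero h1.symm

end Pool.Agent.H18.Cub
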